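import Pool.Agent.helper4.NF.SpecA

/-!
# Project nf: module NRR (the near terms, regrouped by reduced fractions)
-/

set_option autoImplicit false

open Complex MeasureTheory

namespace Pool.Agent.NF

open Pool.Agent.helper84.DM Pool.Agent.helper78.ED Pool.Agent.DH Pool.Agent.ZD

theorem NRR_kap (x y : ℝ) (h : |y| ≤ |x|) : kap x ≤ kap y := by
  unfold kap
  have h1 : y ^ 2 ≤ x ^ 2 := sq_le_sq.2 h
  exact one_div_le_one_div_of_le (by positivity) (by linarith)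

theorem NRR_kap0 (x : ℝ) : 0 ≤ kap x := by
  unfold kap
  positivity

theorem NRR_kapc : Continuous kap := by
  unfold kap
  exact continuous_const.div (by fun_prop) fun x => by positivity

theorem NRR_exp (θ : ℝ) (h : |θ| ≤ 11) : |θ| / 12 ≤ |Real.exp θ - 1| := by
  rcases le_total 0 θ with h0 | h0
  · have h1 := Real.add_one_le_exp θ
    rw [abs_of_nonneg h0, abs_of_nonneg (by linarith)]
    linarith
  · rw [abs_of_nonpos h0] at h
    have h1 := Real.add_one_le_exp (-θ)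
    have h2 : Real.exp θ * Real.exp (-θ) = 1 := by rw [← Real.exp_add]; simp
    have h3 : 0 < Real.exp θ := Real.exp_pos θ
    have h4 : Real.exp θ ≤ 1 := by
      rw [← Real.exp_zero]
      exact Real.exp_le_exp.2 h0
    rw [abs_of_nonpos h0, abs_of_nonpos (by linarith)]
    -- exp θ ≤ 1/(1-θ), 1 - exp θ ≥ -θ/(1-θ) ≥ -θ/12
    have h5 : Real.exp θ * (1 - θ) ≤ 1 := by nlinarith
    have h6 : -θ ≤ (1 - Real.exp θ) * (1 - θ) := by nlinarith
    have h7 : (1 - Real.exp θ) * (1 - θ) ≤ (1 - Real.exp θ) * 12 :=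
      mul_le_mul_of_nonneg_left (by linarith) (by linarith)
    linarith

theorem NRR_ker (Λ θ : ℝ) (g p N i : ℕ) (hΛ : 0 < Λ) (hθ : |θ| ≤ 11) (hp : N * 2 ^ i ≤ 400 * p) :
    kap (Λ * ((g : ℝ) * p * (Real.exp θ - 1))) ≤ kap (Λ * g * N * 2 ^ i / 4800 * θ) := by
  apply NRR_kap
  have h1 := NRR_exp θ hθ
  have h2 : ((N : ℝ) * 2 ^ i) ≤ 400 * p := by exact_mod_cast hp
  rw [abs_mul, abs_mul, abs_mul, abs_of_pos hΛ,
    abs_of_nonneg (by positivity : (0 : ℝ) ≤ (g : ℝ) * p),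
    abs_of_nonneg (by positivity : (0 : ℝ) ≤ Λ * g * N * 2 ^ i / 4800)]
  have h3 : (g : ℝ) * p * (|θ| / 12) ≤ (g : ℝ) * p * |Real.exp θ - 1| :=
    mul_le_mul_of_nonneg_left h1 (by positivity)
  have h4 : (g : ℝ) * ((N : ℝ) * 2 ^ i) * |θ| ≤ (g : ℝ) * (400 * p) * |θ| :=
    mul_le_mul_of_nonneg_right (mul_le_mul_of_nonneg_left h2 (by positivity)) (abs_nonneg _)
  have h5 : (g : ℝ) * ((N : ℝ) * 2 ^ i) * |θ| / 4800 ≤ (g : ℝ) * p * |Real.exp θ - 1| := by
    linarith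
  calc Λ * g * N * 2 ^ i / 4800 * |θ| = Λ * ((g : ℝ) * ((N : ℝ) * 2 ^ i) * |θ| / 4800) := by ring
    _ ≤ Λ * ((g : ℝ) * p * |Real.exp θ - 1|) := mul_le_mul_of_nonneg_left h5 hΛ.le

theorem NRR_log400 : Real.log 400 ≤ 6 := by
  rw [Real.log_le_iff_le_exp (by norm_num)]
  have h1 := Real.exp_one_gt_d9
  have h2 : Real.exp 6 = Real.exp 1 ^ 6 := by
    rw [← Real.exp_nat_mul]
    norm_num
  rw [h2]
  calc (400 : ℝ) ≤ 2.718 ^ 6 := by norm_num
    _ ≤ Real.exp 1 ^ 6 := pow_le_pow_left₀ (by norm_num) (by linarith) 6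

theorem NRR_c (N p q : ℕ) (hN : 1 ≤ N) (hp : 1 ≤ p) (hq : 1 ≤ q) (h1 : N * q ≤ 400 * p)
    (h2 : p ≤ 400 * N * q) : |Real.log p - Real.log q - Real.log N| ≤ 6 := by
  have hN' : (0 : ℝ) < N := by exact_mod_cast hN
  have hp' : (0 : ℝ) < p := by exact_mod_cast hp
  have hq' : (0 : ℝ) < q := by exact_mod_cast hq
  have h3 : Real.log ((N : ℝ) * q) ≤ Real.log (400 * p) :=
    Real.log_le_log (by positivity) (by exact_mod_cast h1)
  have h4 : Real.log (p : ℝ) ≤ Real.log (400 * N * q) :=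
    Real.log_le_log hp' (by exact_mod_cast h2)
  rw [Real.log_mul hN'.ne' hq'.ne', Real.log_mul (by norm_num) hp'.ne'] at h3
  rw [Real.log_mul (by positivity) hq'.ne', Real.log_mul (by norm_num) hN'.ne'] at h4
  have h5 := NRR_log400
  rw [abs_le]
  constructor <;> linarith

/-- the integral for the data `(i, g, (p, q))`. -/
noncomputable def NRR_J (N : ℕ) (Λ : ℝ) (h : ℝ → ℝ) (i g : ℕ) (r : ℕ × ℕ) : ℝ :=
  ∫ θ in (-11 : ℝ)..11, h (Real.log r.1 - Real.log r.2 - Real.log N + θ) *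
    kap (Λ * g * N * 2 ^ i / 4800 * θ)

theorem NRR_J0 (N : ℕ) (Λ : ℝ) (h : ℝ → ℝ) (hh : ∀ x, 0 ≤ h x) (i g : ℕ) (r : ℕ × ℕ) :
    0 ≤ NRR_J N Λ h i g r := by
  unfold NRR_J
  exact intervalIntegral.integral_nonneg (by norm_num) fun θ _ => mul_nonneg (hh _) (NRR_kap0 _)

theorem NRR_one (N g p q i : ℕ) (Λ : ℝ) (h : ℝ → ℝ) (hN : 1 ≤ N) (hΛ : 0 < Λ) (hc : Continuous h)
    (hh : ∀ x, 0 ≤ h x) (hp : 1 ≤ p) (hq : 1 ≤ q) (h1 : N * q ≤ 400 * p) (h2 : p ≤ 400 * N * q)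
    (hi : 2 ^ i ≤ q) :
    ∫ a in (-5 : ℝ)..5, h a * kap (Λ * ((N : ℝ) * Real.exp a * ((g * q : ℕ) : ℝ) - ((g * p : ℕ) : ℝ)))
      ≤ NRR_J N Λ h i g (p, q) := by
  have hN' : (0 : ℝ) < N := by exact_mod_cast hN
  have hp' : (0 : ℝ) < p := by exact_mod_cast hp
  have hq' : (0 : ℝ) < q := by exact_mod_cast hq
  set c : ℝ := Real.log p - Real.log q - Real.log N with hcdef
  have hc6 := abs_le.1 (NRR_c N p q hN hp hq h1 h2)
  rw [← hcdef] at hc6
  set F : ℝ → ℝ := fun a => h a *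
    kap (Λ * ((N : ℝ) * Real.exp a * ((g * q : ℕ) : ℝ) - ((g * p : ℕ) : ℝ))) with hF
  have hFc : Continuous F :=
    hc.mul (NRR_kapc.comp (continuous_const.mul
      (((continuous_const.mul Real.continuous_exp).mul continuous_const).sub continuous_const)))
  have hF0 : ∀ a, 0 ≤ F a := fun a => mul_nonneg (hh _) (NRR_kap0 _)
  have hshift : ∫ a in (-5 : ℝ)..5, F a = ∫ θ in (-5 - c)..(5 - c), F (c + θ) := by
    rw [intervalIntegral.integral_comp_add_left]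
    congr 1 <;> ring
  have hFc' : Continuous fun θ => F (c + θ) := hFc.comp (continuous_const.add continuous_id)
  change ∫ a in (-5 : ℝ)..5, F a ≤ _
  rw [hshift]
  have hstep : ∫ θ in (-5 - c)..(5 - c), F (c + θ) ≤ ∫ θ in (-11 : ℝ)..11, F (c + θ) :=
    intervalIntegral.integral_mono_interval (by linarith) (by linarith) (by linarith)
      (Filter.Eventually.of_forall fun θ => hF0 _) (hFc'.intervalIntegrable _ _)
  refine hstep.trans ?_
  unfold NRR_J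
  refine intervalIntegral.integral_mono_on (by norm_num) (hFc'.intervalIntegrable _ _) ?_ ?_
  · refine Continuous.intervalIntegrable ?_ _ _
    exact (hc.comp (continuous_const.add continuous_id)).mul
      (NRR_kapc.comp (continuous_const.mul continuous_id))
  · intro θ hθ
    have hθ' : |θ| ≤ 11 := abs_le.2 ⟨by linarith [hθ.1], hθ.2⟩
    simp only [hF]
    refine mul_le_mul_of_nonneg_left ?_ (hh _)
    have hexp : (N : ℝ) * Real.exp (c + θ) * ((g * q : ℕ) : ℝ) - ((g * p : ℕ) : ℝ) =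
        (g : ℝ) * p * (Real.exp θ - 1) := by
      have h3 : Real.exp c = p / q / N := by
        rw [hcdef, Real.exp_sub, Real.exp_sub, Real.exp_log hp', Real.exp_log hq',
          Real.exp_log hN']
      rw [Real.exp_add, h3]
      push_cast
      field_simp
    rw [hexp]
    exact NRR_ker Λ θ g p N i hΛ hθ' (le_trans (Nat.mul_le_mul_left N hi) h1)

theorem NRR_int (b : ℝ) (hb : 0 < b) : ∫ θ in (-11 : ℝ)..11, kap (b * θ) ≤ Real.pi / b := by
  have h1 : ∫ θ in (-11 : ℝ)..11, kap (b * θ) = b⁻¹ * ∫ x in (b * -11)..(b * 11), kap x := by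
    rw [intervalIntegral.integral_comp_mul_left _ hb.ne', smul_eq_mul]
  have h2 : ∫ x in (b * -11)..(b * 11), kap x = Real.arctan (b * 11) - Real.arctan (b * -11) := by
    unfold kap
    exact integral_one_div_one_add_sq
  rw [h1, h2]
  have h3 := Real.arctan_lt_pi_div_two (b * 11)
  have h4 := Real.neg_pi_div_two_lt_arctan (b * -11)
  rw [inv_mul_eq_div]
  exact div_le_div_of_nonneg_right (by linarith) hb.le

theorem NRR_row (N : ℕ) (Λ : ℝ) (h : ℝ → ℝ) (Y : ℝ) (i g : ℕ) (hN : 1 ≤ N) (hg : 1 ≤ g)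
    (hΛ : 0 < Λ) (hc : Continuous h) (hY : 0 ≤ Y)
    (hsum : ∀ θ : ℝ, |θ| ≤ 11 →
      ∑ r ∈ RF N i, h (Real.log r.1 - Real.log r.2 - Real.log N + θ) ≤ Y * 2 ^ i) :
    ∑ r ∈ RF N i, NRR_J N Λ h i g r ≤ 4800 * Real.pi * Y / (Λ * N) * (1 / g) := by
  have hN' : (0 : ℝ) < N := by exact_mod_cast hN
  have hg' : (0 : ℝ) < g := by exact_mod_cast hg
  have hb : 0 < Λ * g * N * 2 ^ i / 4800 := by positivity
  unfold NRR_J
  rw [← intervalIntegral.integral_finsetSum]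
  · have h1 : ∫ θ in (-11 : ℝ)..11, ∑ r ∈ RF N i,
        h (Real.log r.1 - Real.log r.2 - Real.log N + θ) * kap (Λ * g * N * 2 ^ i / 4800 * θ) ≤
        ∫ θ in (-11 : ℝ)..11, Y * 2 ^ i * kap (Λ * g * N * 2 ^ i / 4800 * θ) := by
      refine intervalIntegral.integral_mono_on (by norm_num) ?_ ?_ ?_
      · refine Continuous.intervalIntegrable ?_ _ _
        refine continuous_finsetSum _ fun r _ => ?_
        exact (hc.comp (continuous_const.add continuous_id)).mul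
          (NRR_kapc.comp (continuous_const.mul continuous_id))
      · refine Continuous.intervalIntegrable ?_ _ _
        exact continuous_const.mul (NRR_kapc.comp (continuous_const.mul continuous_id))
      · intro θ hθ
        rw [← Finset.sum_mul]
        exact mul_le_mul_of_nonneg_right (hsum θ (abs_le.2 ⟨by linarith [hθ.1], hθ.2⟩)) (NRR_kap0 _)
    refine h1.trans ?_
    rw [intervalIntegral.integral_const_mul]
    have h2 := NRR_int _ hb
    calc Y * 2 ^ i * ∫ θ in (-11 : ℝ)..11, kap (Λ * g * N * 2 ^ i / 4800 * θ)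
        ≤ Y * 2 ^ i * (Real.pi / (Λ * g * N * 2 ^ i / 4800)) :=
          mul_le_mul_of_nonneg_left h2 (by positivity)
      _ = _ := by field_simp
  · intro r _
    refine Continuous.intervalIntegrable ?_ _ _
    exact (hc.comp (continuous_const.add continuous_id)).mul
      (NRR_kapc.comp (continuous_const.mul continuous_id))

theorem NRR_harm (S : ℕ) : ∑ g ∈ Finset.Icc 1 S, (1 : ℝ) / g ≤ 1 + Real.log S := by
  have h1 := harmonic_le_one_add_log S
  rw [harmonic_eq_sum_Icc] at h1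
  push_cast at h1
  simpa [one_div] using h1

theorem NRR_L (S : ℕ) (hS : 1 ≤ S) : ((Nat.log 2 S + 1 : ℕ) : ℝ) ≤ 2 * (1 + Real.log S) := by
  have h1 : 2 ^ Nat.log 2 S ≤ S := Nat.pow_log_le_self 2 (by omega)
  have h2 : ((2 : ℝ) ^ Nat.log 2 S) ≤ S := by exact_mod_cast h1
  have h3 := Real.log_le_log (by positivity) h2
  rw [Real.log_pow] at h3
  have h4 := Real.log_two_gt_d9
  have h5 : (0 : ℝ) ≤ Nat.log 2 S := Nat.cast_nonneg _
  push_cast
  nlinarith

theorem NRR : NRR_stmt := by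
  refine ⟨9600 * Real.pi, by positivity, ?_⟩
  intro N S K Λ h Y hN hS hΛ hc hh hY hsum
  set I : ℕ × ℕ → ℝ := fun x => ∫ a in (-5 : ℝ)..5,
    h a * kap (Λ * ((N : ℝ) * Real.exp a * (x.1 : ℝ) - (x.2 : ℝ))) with hI
  set A : Finset (ℕ × ℕ) := (Finset.Icc 1 S ×ˢ Finset.Icc 1 K).filter
    (fun x => N * x.1 ≤ 400 * x.2 ∧ x.2 ≤ 400 * N * x.1) with hA
  have hLHS : ∑ s ∈ Finset.Icc 1 S, ∑ k ∈ (Finset.Icc 1 K).filter
      (fun k => N * s ≤ 400 * k ∧ k ≤ 400 * N * s),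
      ∫ a in (-5 : ℝ)..5, h a * kap (Λ * ((N : ℝ) * Real.exp a * s - k)) = ∑ x ∈ A, I x := by
    rw [hA, Finset.sum_filter, Finset.sum_product]
    refine Finset.sum_congr rfl fun s _ => ?_
    rw [Finset.sum_filter]
  rw [hLHS]
  set B : Finset (Σ _ : ℕ × ℕ, ℕ × ℕ) :=
    (Finset.range (Nat.log 2 S + 1) ×ˢ Finset.Icc 1 S).sigma fun ig => RF N ig.1 with hB
  set J : (Σ _ : ℕ × ℕ, ℕ × ℕ) → ℝ := fun y => NRR_J N Λ h y.1.1 y.1.2 y.2 with hJ
  set φ : ℕ × ℕ → (Σ _ : ℕ × ℕ, ℕ × ℕ) := fun x =>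
    ⟨(Nat.log 2 (x.1 / Nat.gcd x.1 x.2), Nat.gcd x.1 x.2),
      (x.2 / Nat.gcd x.1 x.2, x.1 / Nat.gcd x.1 x.2)⟩ with hφ
  have hdata : ∀ x ∈ A, 1 ≤ x.1 ∧ x.1 ≤ S ∧ 1 ≤ x.2 ∧ N * x.1 ≤ 400 * x.2 ∧
      x.2 ≤ 400 * N * x.1 := by
    intro x hx
    rw [hA, Finset.mem_filter, Finset.mem_product, Finset.mem_Icc, Finset.mem_Icc] at hx
    exact ⟨hx.1.1.1, hx.1.1.2, hx.1.2.1, hx.2.1, hx.2.2⟩
  have hred : ∀ x ∈ A, ∃ g p q : ℕ, 1 ≤ g ∧ 1 ≤ p ∧ 1 ≤ q ∧ x = (g * q, g * p) ∧ Nat.Coprime p q ∧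
      Nat.gcd x.1 x.2 = g ∧ x.1 / Nat.gcd x.1 x.2 = q ∧ x.2 / Nat.gcd x.1 x.2 = p := by
    intro x hx
    obtain ⟨h1, _, h3, _, _⟩ := hdata x hx
    have hg : 0 < Nat.gcd x.1 x.2 := Nat.gcd_pos_of_pos_left _ h1
    have hd1 := Nat.gcd_dvd_left x.1 x.2
    have hd2 := Nat.gcd_dvd_right x.1 x.2
    refine ⟨Nat.gcd x.1 x.2, x.2 / Nat.gcd x.1 x.2, x.1 / Nat.gcd x.1 x.2, hg,
      Nat.div_pos (Nat.le_of_dvd h3 hd2) hg, Nat.div_pos (Nat.le_of_dvd h1 hd1) hg, ?_,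
      (Nat.coprime_div_gcd_div_gcd hg).symm, rfl, rfl, rfl⟩
    rw [Nat.mul_div_cancel' hd1, Nat.mul_div_cancel' hd2]
  have hstep1 : ∑ x ∈ A, I x ≤ ∑ x ∈ A, J (φ x) := by
    refine Finset.sum_le_sum fun x hx => ?_
    obtain ⟨g, p, q, hg, hp, hq, hx', hcop, e1, e2, e3⟩ := hred x hx
    obtain ⟨_, _, _, h4, h5⟩ := hdata x hx
    have h6 : N * q ≤ 400 * p := by
      rw [hx'] at h4
      refine Nat.le_of_mul_le_mul_left (c := g) ?_ hg
      calc g * (N * q) = N * (g * q) := by ring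
        _ ≤ 400 * (g * p) := h4
        _ = g * (400 * p) := by ring
    have h7 : p ≤ 400 * N * q := by
      rw [hx'] at h5
      refine Nat.le_of_mul_le_mul_left (c := g) ?_ hg
      calc g * p ≤ 400 * N * (g * q) := h5
        _ = g * (400 * N * q) := by ring
    have h8 : J (φ x) = NRR_J N Λ h (Nat.log 2 q) g (p, q) := by
      simp only [hJ, hφ]
      rw [e2, e3, e1]
    rw [h8]
    have h9 := NRR_one N g p q (Nat.log 2 q) Λ h hN hΛ hc hh hp hq h6 h7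
      (Nat.pow_log_le_self 2 (by omega))
    rw [hx']
    exact h9
  have hinj : Set.InjOn φ (A : Set (ℕ × ℕ)) := by
    intro x hx y hy hxy
    obtain ⟨g, p, q, _, _, _, hx', _, e1, e2, e3⟩ := hred x hx
    obtain ⟨g', p', q', _, _, _, hy', _, e1', e2', e3'⟩ := hred y hy
    simp only [hφ, Sigma.mk.injEq, Prod.mk.injEq, heq_eq_eq] at hxy
    obtain ⟨⟨_, hg⟩, hp, hq⟩ := hxy
    rw [e1, e1'] at hg
    rw [e3, e3'] at hp
    rw [e2, e2'] at hq
    rw [hx', hy', hg, hp, hq]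
  have hmem : ∀ x ∈ A, φ x ∈ B := by
    intro x hx
    obtain ⟨g, p, q, hg, hp, hq, hx', hcop, e1, e2, e3⟩ := hred x hx
    obtain ⟨_, h2, _, h4, h5⟩ := hdata x hx
    have h6 : N * q ≤ 400 * p := by
      rw [hx'] at h4
      refine Nat.le_of_mul_le_mul_left (c := g) ?_ hg
      calc g * (N * q) = N * (g * q) := by ring
        _ ≤ 400 * (g * p) := h4
        _ = g * (400 * p) := by ring
    have h7 : p ≤ 400 * N * q := by
      rw [hx'] at h5
      refine Nat.le_of_mul_le_mul_left (c := g) ?_ hg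
      calc g * p ≤ 400 * N * (g * q) := h5
        _ = g * (400 * N * q) := by ring
    have hS' : g * q ≤ S := by rw [hx'] at h2; exact h2
    have hqS : q ≤ S := le_trans (Nat.le_mul_of_pos_left q hg) hS'
    have hgS : g ≤ S := le_trans (Nat.le_mul_of_pos_right g hq) hS'
    have hφx : φ x = ⟨(Nat.log 2 q, g), (p, q)⟩ := by
      simp only [hφ]
      rw [e2, e3, e1]
    have hq1 : 2 ^ Nat.log 2 q ≤ q := Nat.pow_log_le_self 2 (by omega)
    have hq2 : q < 2 ^ (Nat.log 2 q + 1) := Nat.lt_pow_succ_log_self (by norm_num) q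
    rw [hφx, hB, Finset.mem_sigma]
    refine ⟨?_, ?_⟩
    · simp only [Finset.mem_product, Finset.mem_range, Finset.mem_Icc]
      exact ⟨Nat.lt_succ_of_le (Nat.log_mono_right hqS), hg, hgS⟩
    · simp only [RF, Finset.mem_filter, Finset.mem_product, Finset.mem_Icc, Finset.mem_Ico]
      refine ⟨⟨⟨hp, h7.trans ?_⟩, hq1, hq2⟩, hcop, h6, h7⟩
      exact Nat.mul_le_mul_left _ hq2.le
  have hstep2 : ∑ x ∈ A, J (φ x) ≤ ∑ y ∈ B, J y := by
    rw [← Finset.sum_image (f := J) (g := φ) hinj]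
    refine Finset.sum_le_sum_of_subset_of_nonneg (Finset.image_subset_iff.2 hmem) fun y _ _ => ?_
    exact NRR_J0 N Λ h hh _ _ _
  have hstep3 : ∑ y ∈ B, J y = ∑ i ∈ Finset.range (Nat.log 2 S + 1), ∑ g ∈ Finset.Icc 1 S,
      ∑ r ∈ RF N i, NRR_J N Λ h i g r := by
    rw [hB, Finset.sum_sigma, Finset.sum_product]
  have hN' : (0 : ℝ) < N := by exact_mod_cast hN
  have hD : 0 ≤ 4800 * Real.pi * Y / (Λ * N) := by positivity
  have hlog : 0 ≤ Real.log S := Real.log_natCast_nonneg S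
  have hstep4 : ∑ i ∈ Finset.range (Nat.log 2 S + 1), ∑ g ∈ Finset.Icc 1 S,
      ∑ r ∈ RF N i, NRR_J N Λ h i g r ≤
      ∑ i ∈ Finset.range (Nat.log 2 S + 1), 4800 * Real.pi * Y / (Λ * N) * (1 + Real.log S) := by
    refine Finset.sum_le_sum fun i hi => ?_
    have hiS : 2 ^ i ≤ S := by
      refine le_trans (Nat.pow_le_pow_right (by norm_num) (Nat.lt_succ_iff.1 (Finset.mem_range.1 hi))) ?_
      exact Nat.pow_log_le_self 2 (by omega)
    calc ∑ g ∈ Finset.Icc 1 S, ∑ r ∈ RF N i, NRR_J N Λ h i g r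
        ≤ ∑ g ∈ Finset.Icc 1 S, 4800 * Real.pi * Y / (Λ * N) * (1 / g) := by
          refine Finset.sum_le_sum fun g hg => ?_
          exact NRR_row N Λ h Y i g hN (Finset.mem_Icc.1 hg).1 hΛ hc hY (hsum i hiS)
      _ = 4800 * Real.pi * Y / (Λ * N) * ∑ g ∈ Finset.Icc 1 S, (1 : ℝ) / g :=
          (Finset.mul_sum _ _ _).symm
      _ ≤ _ := mul_le_mul_of_nonneg_left (NRR_harm S) hD
  refine hstep1.trans (hstep2.trans (hstep3.le.trans (hstep4.trans ?_)))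
  rw [Finset.sum_const, Finset.card_range, nsmul_eq_mul]
  have h10 := NRR_L S hS
  have h11 : 0 ≤ 4800 * Real.pi * Y / (Λ * N) * (1 + Real.log S) := by positivity
  calc ((Nat.log 2 S + 1 : ℕ) : ℝ) * (4800 * Real.pi * Y / (Λ * N) * (1 + Real.log S))
      ≤ 2 * (1 + Real.log S) * (4800 * Real.pi * Y / (Λ * N) * (1 + Real.log S)) :=
        mul_le_mul_of_nonneg_right h10 h11
    _ = _ := by ring

end Pool.Agent.NF
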